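import Mathlib
import Pool.Agent.H759R2.Kad.Props3

open scoped ComplexOrder InnerProductSpace ComplexConjugate
open Finset

noncomputable section

namespace H759R2.Kad

universe u v

/-- exchange of the value at `c` -/
def A05.swp {n : ℕ} (k : Fin n → ℕ) (c : Fin n) (p : (∀ c : Fin n, Fin (k c + 1)) × Fin (k c + 1)) :
    (∀ c : Fin n, Fin (k c + 1)) × Fin (k c + 1) := (Function.update p.1 c p.2, p.1 c)

theorem A05.swp_inv {n : ℕ} (k : Fin n → ℕ) (c : Fin n) : Function.Involutive (A05.swp k c) := by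
  rintro ⟨s, t⟩
  simp [A05.swp]

theorem prove3_avgone : K_avgone.{u} := by
  intro n k V _ _ c h
  unfold fav
  congr 1
  have h1 : ∑ s : (∀ c : Fin n, Fin (k c + 1)), ∑ t : Fin (k c + 1), h (Function.update s c t) =
      ∑ s : (∀ c : Fin n, Fin (k c + 1)), ∑ _t : Fin (k c + 1), h s := by
    rw [← Fintype.sum_prod_type', ← Fintype.sum_prod_type']
    exact Equiv.sum_comp (Function.Involutive.toPerm _ (A05.swp_inv k c))
      (fun p : (∀ c : Fin n, Fin (k c + 1)) × Fin (k c + 1) => h p.1)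
  have h2 : (k c + 1 : ℂ) ≠ 0 := by exact_mod_cast Nat.succ_ne_zero (k c)
  rw [← Finset.smul_sum, h1]
  simp only [Finset.sum_const, Finset.card_univ, Fintype.card_fin]
  rw [← Finset.smul_sum, ← Nat.cast_smul_eq_nsmul ℂ, smul_smul]
  push_cast
  rw [inv_mul_cancel₀ h2, one_smul]

end H759R2.Kad
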